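import Mathlib
import Pool.Agent.Y920.ETC.Stm3
import Pool.Agent.Y920.ETC.Small

set_option autoImplicit false

/-! The structure of the residue field. -/

namespace Pool.Agent.Y620.ET

open Pool.Agent.Y920.ETC Pool.Agent.TH188.ET Pool.Agent.H315R3.ETC
open IsLocalRing
open scoped Quaternion

variable {F : Type} [Field F] {O : ValuationSubring F}

lemma sq1 (hO : Sqr O) {x : F} (hx : O.valuation x < 1) : IsSquare (1 + x) := by
  rcases O.mem_nonunits_iff_or.1 (O.mem_nonunits_iff.2 hx) with h0 | h0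
  · subst h0
    exact ⟨1, by simp⟩
  · exact hO.2.2 x ((O.valuation_le_one_iff x).1 hx.le) h0

lemma two_mem : (2 : F) ∈ O := by
  have := O.add_mem _ _ O.one_mem O.one_mem
  rwa [one_add_one_eq_two] at this

lemma val_two (hO : Sqr O) : O.valuation (2 : F) = 1 := by
  have h1 : O.valuation (2 : F) ≤ 1 := (O.valuation_le_one_iff _).2 two_mem
  have h3 : O.valuation (2 : F)⁻¹ ≤ 1 := (O.valuation_le_one_iff _).2 hO.1
  refine le_antisymm h1 ?_
  have h4 : O.valuation (2 : F) * O.valuation (2 : F)⁻¹ = 1 := by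
    rw [← map_mul, mul_inv_cancel₀ hO.2.1, map_one]
  calc (1 : O.ValueGroup) = O.valuation (2 : F) * O.valuation (2 : F)⁻¹ := h4.symm
    _ ≤ O.valuation (2 : F) * 1 := by gcongr
    _ = _ := mul_one _

lemma two_res (hO : Sqr O) : (2 : ResidueField O) ≠ 0 := by
  have h1 : IsUnit (2 : O) := (O.valuation_eq_one_iff _).2 (by exact val_two hO)
  have h3 : residue O (2 : O) ≠ 0 := (residue_ne_zero_iff_isUnit _).2 h1
  rwa [map_ofNat] at h3

/-- `1 - t` or `1 - t⁻¹` is a square -/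
lemma norm_dich (hO : Sqr O) (x : Fˣ) (hx : ∀ f : Fˣ, O.valuation ((x * f ^ 2 : Fˣ) : F) ≠ 1)
    (c : Fˣ) (hc : NormFrom x c) : (∃ b : Fˣ, c = b ^ 2) ∨ ∃ b : Fˣ, c = -x * b ^ 2 := by
  obtain ⟨a, b, hab⟩ := hc
  have hx0 : (x : F) ≠ 0 := x.ne_zero
  have hc0 : (c : F) ≠ 0 := c.ne_zero
  by_cases ha : a = 0
  · have hb : b ≠ 0 := by
      rintro rfl
      apply hc0
      rw [hab, ha]
      ring
    right
    refine ⟨Units.mk0 b hb, ?_⟩
    ext
    rw [Units.val_mul, Units.val_neg, Units.val_pow_eq_pow_val, Units.val_mk0, hab, ha]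
    ring
  by_cases hb : b = 0
  · left
    refine ⟨Units.mk0 a ha, ?_⟩
    ext
    rw [Units.val_pow_eq_pow_val, Units.val_mk0, hab, hb]
    ring
  have ht : O.valuation ((x : F) * (b / a) ^ 2) ≠ 1 := by
    have := hx (Units.mk0 (b / a) (div_ne_zero hb ha))
    rwa [Units.val_mul, Units.val_pow_eq_pow_val, Units.val_mk0] at this
  rcases lt_or_gt_of_ne ht with h1 | h1
  · left
    have h3 : O.valuation (-((x : F) * (b / a) ^ 2)) < 1 := by rwa [Valuation.map_neg]
    obtain ⟨s, hs⟩ := sq1 hO h3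
    have hcs : (c : F) = (a * s) ^ 2 := by
      have : (a * s) ^ 2 = a ^ 2 * (s * s) := by ring
      rw [this, ← hs, hab]
      field_simp
      ring
    have hs0 : a * s ≠ 0 := by
      intro h0
      rw [h0] at hcs
      apply hc0
      rw [hcs]
      ring
    refine ⟨Units.mk0 _ hs0, ?_⟩
    ext
    rw [Units.val_pow_eq_pow_val, Units.val_mk0, hcs]
  · right
    have h3 : O.valuation (-((x : F) * (b / a) ^ 2)⁻¹) < 1 := by
      rw [Valuation.map_neg, map_inv₀]
      exact inv_lt_one_of_one_lt₀ h1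
    obtain ⟨s, hs⟩ := sq1 hO h3
    have hcs : (c : F) = -x * (b * s) ^ 2 := by
      have : -(x : F) * (b * s) ^ 2 = -x * b ^ 2 * (s * s) := by ring
      rw [this, ← hs, hab]
      field_simp
      ring
    have hs0 : b * s ≠ 0 := by
      intro h0
      rw [h0] at hcs
      apply hc0
      rw [hcs]
      ring
    refine ⟨Units.mk0 _ hs0, ?_⟩
    ext
    rw [Units.val_mul, Units.val_neg, Units.val_pow_eq_pow_val, Units.val_mk0, hcs]

/-- the residue class of a unit -/
lemma val_pi (u : O.unitGroup) :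
    ((O.unitGroupToResidueFieldUnits u : (ResidueField O)ˣ) : ResidueField O) =
      residue O (O.unitGroupMulEquiv u : O) := rfl

lemma res_eq_iff (a b : O) : residue O a = residue O b ↔ O.valuation ((a : F) - b) < 1 := by
  rw [← sub_eq_zero, ← map_sub, residue_eq_zero_iff, O.valuation_lt_one_iff]
  rfl

lemma key (hO : Sqr O) (u v : O.unitGroup) : NormFrom (u : Fˣ) (v : Fˣ) ↔
    NormFrom (O.unitGroupToResidueFieldUnits u) (O.unitGroupToResidueFieldUnits v) := by
  have hu : O.valuation ((u : Fˣ) : F) = 1 := u.2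
  have hv : O.valuation ((v : Fˣ) : F) = 1 := v.2
  have cu : ((O.unitGroupMulEquiv u : O) : F) = ((u : Fˣ) : F) := rfl
  have cv : ((O.unitGroupMulEquiv v : O) : F) = ((v : Fˣ) : F) := rfl
  constructor
  · rintro ⟨x, y, h⟩
    by_cases hy : y ∈ O
    · have hx2 : x ^ 2 ∈ O := by
        have : x ^ 2 = ((v : Fˣ) : F) + ((u : Fˣ) : F) * (y * y) := by
          rw [h]; ring
        rw [this]
        exact O.add_mem _ _ ((O.valuation_le_one_iff _).1 hv.le)
          (O.mul_mem _ _ ((O.valuation_le_one_iff _).1 hu.le) (O.mul_mem _ _ hy hy))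
      have hx : x ∈ O := by
        rw [← O.valuation_le_one_iff] at hx2 ⊢
        rw [map_pow] at hx2
        exact (pow_le_one_iff two_ne_zero).1 hx2
      refine ⟨residue O ⟨x, hx⟩, residue O ⟨y, hy⟩, ?_⟩
      rw [val_pi, val_pi, ← map_pow, ← map_pow, ← map_mul, ← map_sub]
      congr 1
      apply Subtype.ext
      exact h
    · have hy0 : y ≠ 0 := by
        rintro rfl
        exact hy O.zero_mem
      have hyv : 1 < O.valuation y := by
        rw [← not_le, O.valuation_le_one_iff]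
        exact hy
      refine NormFrom.of_sq (two_res hO) _ _ ?_
      have h1 : (x / y) ^ 2 - ((u : Fˣ) : F) = ((v : Fˣ) : F) * (y⁻¹) ^ 2 := by
        rw [h]
        field_simp
      have h3 : O.valuation ((x / y) ^ 2 - ((u : Fˣ) : F)) < 1 := by
        rw [h1, map_mul, hv, one_mul, map_pow, map_inv₀]
        exact pow_lt_one₀ zero_le (inv_lt_one_of_one_lt₀ hyv) two_ne_zero
      have h4 : (x / y) ^ 2 ∈ O := by
        have : (x / y) ^ 2 = ((x / y) ^ 2 - ((u : Fˣ) : F)) + ((u : Fˣ) : F) := by ring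
        rw [this]
        exact O.add_mem _ _ ((O.valuation_le_one_iff _).1 h3.le)
          ((O.valuation_le_one_iff _).1 hu.le)
      have h5 : x / y ∈ O := by
        rw [← O.valuation_le_one_iff] at h4 ⊢
        rw [map_pow] at h4
        exact (pow_le_one_iff two_ne_zero).1 h4
      have h6 : residue O ⟨x / y, h5⟩ ^ 2 = residue O (O.unitGroupMulEquiv u : O) := by
        rw [← map_pow, res_eq_iff]
        exact h3
      have h7 : residue O ⟨x / y, h5⟩ ≠ 0 := by
        intro h0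
        rw [h0, ← val_pi] at h6
        exact (O.unitGroupToResidueFieldUnits u).ne_zero (by rw [← h6]; ring)
      refine ⟨Units.mk0 _ h7, ?_⟩
      ext
      rw [Units.val_pow_eq_pow_val, Units.val_mk0, h6, val_pi]
  · rintro ⟨x, y, h⟩
    obtain ⟨x, rfl⟩ := residue_surjective x
    obtain ⟨y, rfl⟩ := residue_surjective y
    rw [val_pi, val_pi, ← map_pow, ← map_pow, ← map_mul, ← map_sub, res_eq_iff] at h
    set w : F := ((x : F)) ^ 2 - ((u : Fˣ) : F) * (y : F) ^ 2 with hw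
    have h' : O.valuation (((v : Fˣ) : F) - w) < 1 := h
    have hwv : O.valuation w = 1 := by
      have h1 : w = ((v : Fˣ) : F) + -(((v : Fˣ) : F) - w) := by ring
      rw [h1, Valuation.map_add_eq_of_lt_left, hv]
      rw [Valuation.map_neg, hv]
      exact h'
    have hw0 : w ≠ 0 := by
      intro h0
      rw [h0, map_zero] at hwv
      exact zero_ne_one hwv
    have h3 : O.valuation ((((v : Fˣ) : F) - w) / w) < 1 := by
      rw [map_div₀, hwv, div_one]
      exact h'
    obtain ⟨s, hs⟩ := sq1 hO h3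
    refine ⟨x * s, y * s, ?_⟩
    have h4 : ((x : F) * s) ^ 2 - ((u : Fˣ) : F) * ((y : F) * s) ^ 2 = w * (s * s) := by
      rw [hw]; ring
    rw [h4, ← hs]
    field_simp
    ring

lemma neg_unit (u : Fˣ) (hu : u ∈ O.unitGroup) : -u ∈ O.unitGroup := by
  rw [ValuationSubring.mem_unitGroup_iff] at hu ⊢
  rw [Units.val_neg, Valuation.map_neg]
  exact hu

/-- the structure on the unit classes is the one of the residue field -/
theorem res_struct (hO : Sqr O) {S : QData} {φ : Fˣ →* S.G}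
    (hk : ∀ a : Fˣ, φ a = 1 ↔ ∃ b : Fˣ, a = b ^ 2) (hn : φ (-1) = S.neg) (h0 : S.q 1 1 = S.zero)
    (hq : ∀ a b c d : Fˣ, S.q (φ a) (φ b) = S.q (φ c) (φ d) ↔ QIso a b c d)
    (hS : IsQuat S) {K0 : Subgroup S.G} (hK0 : K0 = O.unitGroup.map φ)
    (hBi : ∀ g : S.G, g ∉ K0 → Bi S g) (hneg : S.neg ∈ K0) :
    IsStructureOf (ResidueField O) (restrN S K0 hneg) := by
  have h2 : (2 : F) ≠ 0 := hO.2.1
  have h2k : (2 : ResidueField O) ≠ 0 := two_res hO
  have hm1 : (-1 : Fˣ) ∈ O.unitGroup := neg_unit 1 (one_mem _)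
  have hQ := (isQuat_restrN hS K0 hneg hBi).1
  let θ : O.unitGroup →* K0 := (φ.comp O.unitGroup.subtype).codRestrict K0
    (fun u => by rw [hK0]; exact ⟨u.1, u.2, rfl⟩)
  have hθ : ∀ u, ((θ u : K0) : S.G) = φ u := fun u => rfl
  let π := O.unitGroupToResidueFieldUnits
  have hπ : Function.Surjective π := O.surjective_unitGroupToResidueFieldUnits
  have hker : π.ker ≤ θ.ker := by
    intro u hu
    have h1 : u ∈ O.principalUnitGroup.comap O.unitGroup.subtype := by
      rw [← O.ker_unitGroupToResidueFieldUnits]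
      exact hu
    have h3 : O.valuation (((u : Fˣ) : F) - 1) < 1 := h1
    obtain ⟨s, hs'⟩ := sq1 hO h3
    rw [add_sub_cancel] at hs'
    have hs0 : s ≠ 0 := by
      rintro rfl
      rw [mul_zero] at hs'
      exact (u : Fˣ).ne_zero hs'
    rw [MonoidHom.mem_ker]
    apply Subtype.ext
    rw [hθ]
    refine (hk _).2 ⟨Units.mk0 s hs0, ?_⟩
    ext
    rw [Units.val_pow_eq_pow_val, Units.val_mk0, hs', pow_two]
  obtain ⟨ψ, hψ⟩ : ∃ ψ : (ResidueField O)ˣ →* K0, ∀ u, ψ (π u) = θ u :=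
    ⟨π.liftOfSurjective hπ ⟨θ, hker⟩, fun u =>
      MonoidHom.liftOfRightInverse_comp_apply π _ (Function.rightInverse_surjInv hπ) ⟨θ, hker⟩ u⟩
  have tr : ∀ u v w : O.unitGroup, S.q (φ u) (φ v) = S.q (φ u) (φ w) ↔
      QIso (π u) (π v) (π u) (π w) := by
    intro u v w
    rw [hq, qiso_iff h2, qiso_iff h2k, ← map_mul]
    exact key hO u (v * w)
  have hψ' : ∀ u, ((ψ (π u) : K0) : S.G) = φ u := fun u => by rw [hψ, hθ]
  have hmem : ∀ g : S.G, g ∈ K0 → ∃ u : Fˣ, u ∈ O.unitGroup ∧ φ u = g := by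
    intro g hg
    rw [hK0] at hg
    exact hg
  have c1 : Function.Surjective ψ := by
    intro g
    obtain ⟨u, hu, hug⟩ := hmem g g.2
    exact ⟨π ⟨u, hu⟩, Subtype.ext ((hψ' ⟨u, hu⟩).trans hug)⟩
  have c3 : ∀ a : (ResidueField O)ˣ, ψ a = 1 ↔ ∃ b : (ResidueField O)ˣ, a = b ^ 2 := by
    intro a
    obtain ⟨u, rfl⟩ := hπ a
    constructor
    · intro h1
      have h3 : φ u = 1 := by rw [← hψ', h1]; rfl
      obtain ⟨f, hf⟩ := (hk _).1 h3
      have hfu : f ∈ O.unitGroup := by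
        have h4 : O.valuation ((u : Fˣ) : F) = 1 := u.2
        rw [hf, Units.val_pow_eq_pow_val, map_pow] at h4
        rw [ValuationSubring.mem_unitGroup_iff]
        exact (pow_eq_one_iff_of_nonneg zero_le two_ne_zero).1 h4
      refine ⟨π ⟨f, hfu⟩, ?_⟩
      rw [← map_pow]
      congr 1
      exact Subtype.ext hf
    · rintro ⟨b, hb⟩
      rw [hb, map_pow, pow_two]
      apply Subtype.ext
      exact hS.exp2 _
  have c4 : ((ψ (-1) : K0) : S.G) = S.neg := by
    have h1 : (-1 : (ResidueField O)ˣ) = π ⟨-1, hm1⟩ := by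
      ext
      rw [val_pi]
      have h3 : (O.unitGroupMulEquiv ⟨-1, hm1⟩ : O) = -1 := Subtype.ext rfl
      rw [h3, map_neg, map_one]
      rfl
    rw [h1, hψ']
    exact hn
  have c5 : ∀ a b c d : (ResidueField O)ˣ,
      S.q (ψ a : K0) (ψ b : K0) = S.q (ψ c : K0) (ψ d : K0) ↔ QIso a b c d := by
    intro a b c d
    obtain ⟨u, rfl⟩ := hπ a
    obtain ⟨v, rfl⟩ := hπ b
    obtain ⟨u', rfl⟩ := hπ c
    obtain ⟨v', rfl⟩ := hπ d
    rw [hψ', hψ', hψ', hψ']
    constructor
    · intro h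
      obtain ⟨x, h1, h3⟩ := hQ.qs4 (θ u) (θ v) (θ u') (θ v') h
      have hx : ∃ w : O.unitGroup, φ w = (x : K0).1 := by
        obtain ⟨w, hw, hwx⟩ := hmem (x : K0).1 (x : K0).2
        exact ⟨⟨w, hw⟩, hwx⟩
      obtain ⟨w, hw⟩ := hx
      have e1 : S.q (φ u) (φ v) = S.q (φ u) (φ w) := by rw [hw]; exact h1
      have e3 : S.q (φ u') (φ v') = S.q (φ u') (φ w) := by rw [hw]; exact h3
      have e4 : S.q (φ w) (φ u) = S.q (φ w) (φ u') := by
        rw [hS.qs2, ← e1, h, e3, hS.qs2]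
      rw [tr] at e1 e3 e4
      exact ((e1.trans (qiso_symm h2k _ _)).trans e4).trans
        ((qiso_symm h2k _ _).trans e3.symm)
    · intro h
      obtain ⟨x, h1, h3⟩ := qiso_slot h2k h
      obtain ⟨w, rfl⟩ := hπ x
      have e4 : QIso (π w) (π u) (π w) (π u') :=
        ((((qiso_symm h2k _ _).trans h1.symm).trans h).trans h3).trans (qiso_symm h2k _ _)
      rw [← tr] at h1 h3 e4
      rw [h1, h3, hS.qs2, e4, hS.qs2]
  exact ⟨ψ, c1, c3, Subtype.ext c4, h0, c5⟩

theorem t_RES : Pool.Agent.Y920.ETC.S_RES := by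
  intro F _ O hO S φ hs hk hn h0 hq
  have h2 : (2 : F) ≠ 0 := hO.2.1
  have hS : IsQuat S := isQuat h2 φ hs hk hn h0 hq
  have hz : ∀ a b : Fˣ, S.q (φ a) (φ b) = S.zero ↔ NormFrom a b := by
    intro a b
    rw [← qiso_one h2, ← h0, ← map_one φ, hq]
    rfl
  have hm1 : (-1 : Fˣ) ∈ O.unitGroup := neg_unit 1 (one_mem _)
  -- birigid elements
  have hHr : ∀ x : Fˣ, φ x ∉ O.unitGroup.map φ → Hr S (φ x) := by
    intro x hx e he
    obtain ⟨c, rfl⟩ := hs e
    rw [hz] at he
    have hv : ∀ f : Fˣ, O.valuation ((x * f ^ 2 : Fˣ) : F) ≠ 1 := by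
      intro f hf
      apply hx
      refine ⟨x * f ^ 2, hf, ?_⟩
      rw [map_mul, (hk (f ^ 2)).2 ⟨f, rfl⟩, mul_one]
    rcases norm_dich hO x hv c he with ⟨b, hb⟩ | ⟨b, hb⟩
    · exact Or.inl ((hk c).2 ⟨b, hb⟩)
    · right
      rw [hb, map_mul, (hk (b ^ 2)).2 ⟨b, rfl⟩, mul_one, ← hn, ← map_mul, neg_one_mul]
  have hBi : ∀ g : S.G, g ∉ O.unitGroup.map φ → Bi S g := by
    intro g hg
    obtain ⟨x, rfl⟩ := hs g
    refine ⟨?_, ?_, hHr x hg, ?_⟩
    · intro e
      exact hg (by rw [e]; exact one_mem _)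
    · intro e
      exact hg (by rw [e, ← hn]; exact ⟨-1, hm1, rfl⟩)
    · have h1 : S.neg * φ x = φ (-x) := by rw [← hn, ← map_mul, neg_one_mul]
      rw [h1]
      apply hHr
      intro h3
      apply hg
      have h4 : φ (-1) * φ (-x) = φ x := by rw [← map_mul]; congr 1; simp
      rw [← h4]
      exact mul_mem ⟨-1, hm1, rfl⟩ h3
  exact ⟨two_res hO, fun hneg => res_struct hO hk hn h0 hq hS rfl hBi hneg, hBi⟩

end Pool.Agent.Y620.ET
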