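import Mathlib
import Pool.Agent.Y920.ETC.Stm3

set_option autoImplicit false

/-! Extension of valuation rings. -/

namespace Pool.Agent.Y620.ET

open Pool.Agent.Y920.ETC

theorem t_EXTV : Pool.Agent.Y920.ETC.S_EXTV := by
  intro F K _ _ _ O
  obtain ⟨O₁, h, hloc⟩ :=
    IsLocalRing.exists_factor_valuationRing ((algebraMap F K).comp O.subtype)
  refine ⟨O₁, ?_⟩
  ext x
  rw [ValuationSubring.mem_comap]
  constructor
  · intro hx
    by_contra hxO
    have hx0 : x ≠ 0 := by
      rintro rfl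
      exact hxO O.zero_mem
    have hxi : x⁻¹ ∈ O := (O.mem_or_inv_mem x).resolve_left hxO
    have hu : IsUnit ((((algebraMap F K).comp O.subtype).codRestrict O₁.toSubring h) ⟨x⁻¹, hxi⟩) := by
      refine IsUnit.of_mul_eq_one ⟨algebraMap F K x, hx⟩ ?_
      apply Subtype.ext
      show algebraMap F K x⁻¹ * algebraMap F K x = 1
      rw [← map_mul, inv_mul_cancel₀ hx0, map_one]
    have hu2 : IsUnit (⟨x⁻¹, hxi⟩ : O) := hloc.map_nonunit _ hu
    obtain ⟨w, hw⟩ := hu2.exists_right_inv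
    have hw' : x⁻¹ * (w : F) = 1 := congrArg Subtype.val hw
    have : (w : F) = x := by
      have h1 : x * (x⁻¹ * (w : F)) = x * 1 := by rw [hw']
      rwa [← mul_assoc, mul_inv_cancel₀ hx0, one_mul, mul_one] at h1
    exact hxO (this ▸ w.2)
  · intro hx
    exact h ⟨x, hx⟩

end Pool.Agent.Y620.ET
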